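import Mathlib
import Pool.Agent.U155.Fer.C

set_option autoImplicit false

/-!
# The law of Fermat primes for almost every amplitude

For real `β > 0` let `V β m` be the least integer larger than `β * 2 ^ (2 ^ m)`; for `β = 1` this is
the Fermat number `F_m = 2 ^ (2 ^ m) + 1`.  All prime factors of `F_m`, `m ≥ 2`, are larger than
`2 ^ (m + 2)`, because they are congruent to `1` modulo `2 ^ (m + 2)`.  Let `W β m` be the product
(with multiplicity) of the prime factors of `V β m` that are larger than `2 ^ (m + 2)`.  Thus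
`W 1 m = F_m` for `m ≥ 2`, and the Fermat primes with `m ≥ 2` are the prime values of `W 1`.

The heuristic argument for the finiteness of the set of Fermat primes (Hardy and Wright; with the
correction for the small primes, Boklan and Conway) gives the value
`∑_{m ≥ N} e ^ γ log (2 ^ (m + 2)) / log (2 ^ (2 ^ m)) = e ^ γ (N + 3) 2 ^ (1 - N)`
for the expected number of Fermat primes `F_m` with `m ≥ N`.  We prove that this is exactly what
happens for the amplitude `β`: in every window `s < log β ≤ t` of amplitudes the (logarithmic)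
measure of the `β` for which some `W β m` with `m ≥ N` is prime is asymptotic to
`(t - s) e ^ γ (N + 3) 2 ^ (1 - N)`, the measure of the `β` with two or more such `m` is smaller,
namely `O ((N + 3) ^ 2 4 ^ (- N))`, so for almost every `β` only finitely many of the `W β m` are
prime.  On the other hand this cannot be seen from the topology: the set of `β` for which
infinitely many of the `W β m` are prime is residual.
-/

namespace Pool.Agent.Results.MP_37e5fa_nt.AmplitudeLaw

open Filter Topology MeasureTheory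

/-- The product, with multiplicity, of the prime factors of `n` that are larger than `r`. -/
def roughPart (r n : ℕ) : ℕ := (n.primeFactorsList.filter (fun q => r < q)).prod

/-- The `2 ^ (m + 2)`-rough part of the least integer larger than `β * 2 ^ (2 ^ m)`. -/
noncomputable def W (β : ℝ) (m : ℕ) : ℕ := roughPart (2 ^ (m + 2)) (⌊β * 2 ^ (2 ^ m)⌋₊ + 1)

/-- The value of `W` at `β = 1` is the Fermat number; the exact tail law for the amplitude; the
bound for two prime values; almost everywhere finitely many prime values; generically infinitely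
many prime values. -/
theorem result :
    (∀ m : ℕ, 2 ≤ m → W 1 m = Nat.fermatNumber m) ∧
    (∀ s t : ℝ, s < t →
      Tendsto (fun N : ℕ => (volume {u : ℝ | s < u ∧ u ≤ t ∧ ∃ m ≥ N, (W (Real.exp u) m).Prime}).toReal /
          ((N + 3) * 2 / 2 ^ N)) atTop
        (𝓝 (Real.exp Real.eulerMascheroniConstant * (t - s)))) ∧
    (∀ s t : ℝ, s < t → ∃ K : ℝ, ∀ᶠ N : ℕ in atTop,
      (volume {u : ℝ | s < u ∧ u ≤ t ∧ ∃ m ≥ N, ∃ n > m,
        (W (Real.exp u) m).Prime ∧ (W (Real.exp u) n).Prime}).toReal ≤ K * ((N + 3) / 2 ^ N) ^ 2) ∧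
    (∀ᵐ β : ℝ, 0 < β → {m : ℕ | (W β m).Prime}.Finite) ∧
    (∀ᶠ β : ℝ in residual ℝ, 0 < β → {m : ℕ | (W β m).Prime}.Infinite) := by
  refine ⟨fun m hm => Pool.Agent.U155.Fer.W_one hm, fun s t hst => ?_, fun s t hst => ?_,
    Pool.Agent.U155.Fer.ae_finite, Pool.Agent.U155.Fer.residual_infinite⟩
  · refine (Pool.Agent.U155.Fer.law_all hst).congr fun N => ?_
    rw [measureReal_def, Measure.restrict_apply' measurableSet_Ioc]
    have e : {u : ℝ | ∃ m ≥ N, u ∈ Pool.Agent.U155.Fer.A m} ∩ Set.Ioc s t =
        {u : ℝ | s < u ∧ u ≤ t ∧ ∃ m ≥ N, (W (Real.exp u) m).Prime} := by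
      ext u
      constructor
      · rintro ⟨h1, h2, h3⟩
        exact ⟨h2, h3, h1⟩
      · rintro ⟨h2, h3, h1⟩
        exact ⟨h1, h2, h3⟩
    rw [e]
    rfl
  · obtain ⟨K, hK⟩ := Pool.Agent.U155.Fer.pairs_all hst
    refine ⟨K * 4, ?_⟩
    filter_upwards [hK] with N hN
    rw [measureReal_def, Measure.restrict_apply' measurableSet_Ioc] at hN
    have e : {u : ℝ | ∃ m ≥ N, ∃ n > m, u ∈ Pool.Agent.U155.Fer.A m ∧
        u ∈ Pool.Agent.U155.Fer.A n} ∩ Set.Ioc s t =
        {u : ℝ | s < u ∧ u ≤ t ∧ ∃ m ≥ N, ∃ n > m,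
          (W (Real.exp u) m).Prime ∧ (W (Real.exp u) n).Prime} := by
      ext u
      constructor
      · rintro ⟨h1, h2, h3⟩
        exact ⟨h2, h3, h1⟩
      · rintro ⟨h2, h3, h1⟩
        exact ⟨h1, h2, h3⟩
    rw [e] at hN
    refine hN.trans (le_of_eq ?_)
    unfold Pool.Agent.U155.Fer.c
    ring

end Pool.Agent.Results.MP_37e5fa_nt.AmplitudeLaw
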