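import Pool.Agent.U976.Fer.Cor

set_option autoImplicit false

/-!
# MP_37e5fa_nt: the index modulo a Fermat prime of `2^s - 1`, `s` even, and of cyclotomic units

Let `F_m = 2^(2^m) + 1`, `m ≥ 4`.

(1) For `1 ≤ i ≤ m` and odd `s` the `(F_m - 1)/2^(m+1)`-th power of `2^(2^i s) - 1` modulo a Fermat
prime `F_m` is `2^E`, where `4 E` modulo `2^(m+3)` is an explicit truncated signed `2`-adic series
at `2^(2^i)`; the converse holds if `2^(m+1)` does not divide `E`.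

(2) If `2^i ≤ m + 2` and `s` is odd then `F_m` is prime if and only if
`(2^(2^i s) - 1)^(2^(2^m + 1 - 2^i)) = -1` modulo `F_m`.

(3)-(6) If `F_m` is prime, `2^s - 1` is a `2^(m+1)`-th power residue modulo `F_m` as soon as `s` is
divisible by a power `2^i ≥ m + 3` of two (and not by `2^(m+1)`); hence so are all cyclotomic units
`1 - ζ` of conductor at most `2^(m+1-i)`, and `1 + √2`; and `F_m` divides the Pell number
of index `2^(2^m - m - 1)`.

(7), (8) The base `F_j`.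
-/

namespace Pool.Agent.Results.MP_37e5fa_nt.EvenMersenneIndex

open Pool.Agent.U976.Fer

/-- The sign `ε_(n,s)(k)`: it is `+1` if the least residue of `k / s` modulo `2^(n+1)` is less than
`2^n`, and `-1` otherwise. -/
def sgn (n s k : ℕ) : ℤ :=
  if ((k : ZMod (2 ^ (n + 1))) * (s : ZMod (2 ^ (n + 1)))⁻¹).val < 2 ^ n then 1 else -1

/-- The correction: `2^(m+1) (ε_(m,s)(2) - ε_(m,s)(1) + 2)` for `i = 1`, `2^(m+1)` for `i = 2`,
and `0` for the other `i`. -/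
def corr (m i s : ℕ) : ℤ :=
  if i = 1 then 2 ^ (m + 1) * (sgn m s 2 - sgn m s 1 + 2) else
    if i = 2 then 2 ^ (m + 1) else 0

/-- `4 E ≡ s ∑_{k=1}^{2m+4} ε_(m-i,s)(k) 2^(2^i k) / k + corr` modulo `2^(m+3)`, in the ring of
rational numbers with odd denominator. -/
def Ind (m i s E : ℕ) : Prop :=
  ∃ d n : ℤ, Odd d ∧
    (d : ℚ) * (4 * E - (s * ∑ k ∈ Finset.Icc 1 (2 * m + 4),
      (sgn (m - i) s k : ℚ) * 2 ^ (2 ^ i * k) / k + corr m i s)) = 2 ^ (m + 3) * n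

/-- The Pell numbers `0, 1, 2, 5, 12, 29, ...`. -/
def pell : ℕ → ℕ
  | 0 => 0
  | 1 => 1
  | n + 2 => 2 * pell (n + 1) + pell n

lemma pell_eq (n : ℕ) : pell n = Pool.Agent.U976.Fer.pell n := by
  induction n using Nat.strong_induction_on with
  | _ n ih =>
    match n with
    | 0 => rfl
    | 1 => rfl
    | n + 2 =>
      rw [pell, Pool.Agent.U976.Fer.pell, ih n (by omega), ih (n + 1) (by omega)]

lemma corr_eq (m i s : ℕ) : corr m i s = Pool.Agent.U976.Fer.corr m i s := rfl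

lemma ind_iff (m i s E : ℕ) : Ind m i s E ↔
    Cg (m + 3) (4 * (E : ℚ)) ((s : ℚ) * Pool.Agent.Y875.FP.AA (m - i) (2 ^ 2 ^ i) s (2 * m + 4) +
      (Pool.Agent.U976.Fer.corr m i s : ℤ)) := by
  unfold Ind Cg
  have h1 : ∑ k ∈ Finset.Icc 1 (2 * m + 4), (sgn (m - i) s k : ℚ) * 2 ^ (2 ^ i * k) / k =
      Pool.Agent.Y875.FP.AA (m - i) (2 ^ 2 ^ i) s (2 * m + 4) := by
    unfold Pool.Agent.Y875.FP.AA
    have h2 : Finset.Icc 1 (2 * m + 4) = Finset.Ico 1 (2 * m + 4 + 1) := by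
      ext k
      simp only [Finset.mem_Icc, Finset.mem_Ico]
      omega
    rw [h2, Finset.sum_Ico_eq_sum_range, Nat.add_sub_cancel]
    refine Finset.sum_congr rfl fun k _ => ?_
    rw [add_comm 1 k, mul_div_assoc, pow_mul]
    push_cast
    rfl
  rw [h1, corr_eq]

lemma cast_sub (m s : ℕ) :
    ((2 ^ s - 1 : ℕ) : ZMod (Nat.fermatNumber m)) = 2 ^ s - 1 := by
  rw [Nat.cast_sub Nat.one_le_two_pow]
  push_cast
  ring

lemma exp_eq (m : ℕ) : (Nat.fermatNumber m - 1) / 2 ^ (m + 1) = 2 ^ (2 ^ m - (m + 1)) := by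
  unfold Nat.fermatNumber
  rw [Nat.add_sub_cancel, Nat.pow_div (T_lt m) (by norm_num)]

theorem result (m : ℕ) (hm : 4 ≤ m) :
    -- the exact index of `2^(2^i s) - 1` and its converse
    (∀ i s : ℕ, 1 ≤ i → i ≤ m → Odd s →
      (∃ E : ℕ, Ind m i s E) ∧ ∀ E : ℕ, Ind m i s E →
        ((Nat.fermatNumber m).Prime →
          ((2 ^ (2 ^ i * s) - 1 : ℕ) : ZMod (Nat.fermatNumber m)) ^
            ((Nat.fermatNumber m - 1) / 2 ^ (m + 1)) = 2 ^ E) ∧
        (¬ 2 ^ (m + 1) ∣ E →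
          ((2 ^ (2 ^ i * s) - 1 : ℕ) : ZMod (Nat.fermatNumber m)) ^
            ((Nat.fermatNumber m - 1) / 2 ^ (m + 1)) = 2 ^ E → (Nat.fermatNumber m).Prime)) ∧
    -- Pepin tests in the bases `2^(2^i s) - 1`
    (∀ i s : ℕ, 1 ≤ i → 2 ^ i ≤ m + 2 → Odd s →
      ((Nat.fermatNumber m).Prime ↔
        ((2 ^ (2 ^ i * s) - 1 : ℕ) : ZMod (Nat.fermatNumber m)) ^ (2 ^ (2 ^ m + 1 - 2 ^ i)) =
          -1)) ∧
    -- Pepin tests in the bases `F_j`
    (∀ j : ℕ, 1 ≤ j → 2 ^ j ≤ m + 2 →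
      ((Nat.fermatNumber m).Prime ↔
        ((Nat.fermatNumber j : ℕ) : ZMod (Nat.fermatNumber m)) ^ (2 ^ (2 ^ m + 1 - 2 ^ j)) =
          -1)) ∧
    -- power residues modulo a Fermat prime
    ((Nat.fermatNumber m).Prime →
      (∀ i s : ℕ, m + 3 ≤ 2 ^ i → 2 ^ i ∣ s → ¬ 2 ^ (m + 1) ∣ s →
        ∃ y : ZMod (Nat.fermatNumber m), y ^ (2 ^ (m + 1)) = 2 ^ s - 1) ∧
      (∀ j : ℕ, m + 3 ≤ 2 ^ j → j < m →
        ∃ y : ZMod (Nat.fermatNumber m), y ^ (2 ^ (m + 1)) = (Nat.fermatNumber j : ℕ)) ∧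
      (∀ (i j : ℕ) (z : ZMod (Nat.fermatNumber m)), m + 3 ≤ 2 ^ i → i + j ≤ m + 1 →
        z ^ (2 ^ j) = 1 → z ≠ 1 →
        ∃ y : ZMod (Nat.fermatNumber m), y ^ (2 ^ (m + 1)) = 1 - z) ∧
      (5 ≤ m → ∀ x : ZMod (Nat.fermatNumber m), x ^ 2 = 2 →
        ∃ y : ZMod (Nat.fermatNumber m), y ^ (2 ^ (m + 1)) = 1 + x) ∧
      (5 ≤ m → Nat.fermatNumber m ∣ pell (2 ^ (2 ^ m - (m + 1))))) := by
  refine ⟨?_, ?_, ?_, ?_⟩
  · intro i s hi1 him hs
    refine ⟨?_, ?_⟩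
    · obtain ⟨E, hE⟩ := exists_ind (m := m) (i := i) (s := s) hm hi1
      exact ⟨E, (ind_iff m i s E).mpr hE⟩
    · intro E hE
      rw [ind_iff] at hE
      rw [exp_eq, cast_sub]
      exact ⟨fun hF => law hm hi1 him hs hE hF,
        fun hd h => Pool.Agent.Y875.FP.mersenne_conv hm hd h⟩
  · intro i s hi1 hi hs
    rw [cast_sub]
    exact crit hm hi1 hi hs
  · intro j hj1 hj
    exact fermat_small hm hj1 hj
  · intro hF
    refine ⟨?_, ?_, ?_, ?_, ?_⟩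
    · intro i s hi hd hnd
      exact root_of hF (res_s hm hi hd hnd hF)
    · intro j hj hjm
      exact root_of hF (fermat_large hm hj hjm hF)
    · intro i j z hi hij hz hz1
      exact root_of hF (cyc hm hi hij hF hz hz1)
    · intro h5 x hx
      exact root_of hF (sqrt_two h5 hF hx)
    · intro h5
      rw [pell_eq]
      exact pell_dvd h5 hF

end Pool.Agent.Results.MP_37e5fa_nt.EvenMersenneIndex
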