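import Pool.Agent.Y875.FP.Conv

set_option autoImplicit false

/-!
# MP_37e5fa_nt: Pepin tests in the bases built from the prime factors of one Fermat number

Let all prime factors of `b > 1` divide the Fermat number `F_j` (for instance `b = F_j`, or
`b = 641`, `j = 5`).  Such a `b` is a square modulo every Fermat prime `F_m`, `m ≥ j + 2`, so it is
not a base of Pepin's classical test.

(1) For `r ≥ 2` and `m = j + r` the `2^(r+1)`-th power residue symbol of `b` modulo a Fermat prime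
`F_m` is `2^(-2^j y)`, where `b^(2^(r-1)) = 1 + 2^(r+1) y`; conversely, if `2^(r+1)` does not divide
`y`, this value of the symbol forces `F_m` to be prime.

(2) Let `2^(v+1)` be the exact power of `2` dividing `b^2 - 1`.  For all `m ≥ j + 2` with
`m ≥ j + v - 2` the Fermat number `F_m` is prime if and only if
`b^(2^(2^m + 1 - v)) ≡ -1` modulo `F_m`.
-/

namespace Pool.Agent.Results.MP_37e5fa_nt.FermatDivisorBases

/-- all prime factors of `b` divide the Fermat number `F_j` -/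
def DividesPowers (b j : ℕ) : Prop := ∀ q : ℕ, q.Prime → q ∣ b → q ∣ Nat.fermatNumber j

lemma odd_of {b j : ℕ} (hb : DividesPowers b j) : Odd b := by
  rw [← Nat.not_even_iff_odd]
  intro hev
  have h1 := hb 2 Nat.prime_two (even_iff_two_dvd.mp hev)
  exact (Nat.not_even_iff_odd.mpr (Nat.odd_fermatNumber j)) (even_iff_two_dvd.mpr h1)

/-- the powers of `b` -/
lemma pow_form {b v w : ℕ} (hv : 2 ≤ v) (hw : Odd w) (h : b ^ 2 = 1 + 2 ^ (v + 1) * w) (k : ℕ) :
    ∃ w' : ℕ, Odd w' ∧ b ^ (2 ^ (k + 1)) = 1 + 2 ^ (v + k + 1) * w' := by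
  induction k with
  | zero => exact ⟨w, hw, by simpa using h⟩
  | succ k ih =>
    obtain ⟨w', hw', h'⟩ := ih
    refine ⟨w' + 2 ^ (v + k) * w' ^ 2, ?_, ?_⟩
    · apply hw'.add_even
      apply Even.mul_right
      rw [Nat.even_pow]
      exact ⟨even_two, by omega⟩
    · rw [pow_succ 2 (k + 1), pow_mul, h']
      have e1 : v + (k + 1) + 1 = (v + k + 1) + 1 := by ring
      rw [e1, pow_succ 2 (v + k + 1), pow_succ 2 (v + k)]
      ring

lemma sq_form {b : ℕ} (hb : Odd b) (hb1 : 1 < b) : ∃ v w : ℕ, 2 ≤ v ∧ Odd w ∧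
    b ^ 2 = 1 + 2 ^ (v + 1) * w ∧ padicValNat 2 (b ^ 2 - 1) = v + 1 := by
  obtain ⟨c, hc⟩ := hb
  have hc0 : 0 < c := by omega
  have h1 : b ^ 2 = 1 + 4 * (c * (c + 1)) := by rw [hc]; ring
  obtain ⟨s, hs⟩ := Nat.even_mul_succ_self c
  have hs0 : s ≠ 0 := by
    rintro rfl
    have : 0 < c * (c + 1) := by positivity
    omega
  obtain ⟨u, w, hw, rfl⟩ := Nat.exists_eq_two_pow_mul_odd hs0
  have h2 : b ^ 2 = 1 + 2 ^ (u + 2 + 1) * w := by
    rw [h1, hs]
    ring
  refine ⟨u + 2, w, by omega, hw, h2, ?_⟩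
  rw [h2, Nat.add_sub_cancel_left]
  have hw2 : ¬ 2 ∣ w := by
    intro h
    exact (Nat.not_even_iff_odd.mpr hw) (even_iff_two_dvd.mpr h)
  have hw0 : w ≠ 0 := by
    rintro rfl
    exact hw2 (dvd_zero 2)
  rw [padicValNat.mul (by positivity) hw0, padicValNat.prime_pow,
    padicValNat.eq_zero_of_not_dvd hw2, add_zero]

/-- the test -/
theorem test {b j m v : ℕ} (hb : DividesPowers b j) (hb1 : 1 < b)
    (hv : padicValNat 2 (b ^ 2 - 1) = v + 1) (hm : j + 2 ≤ m) (hm2 : j + v ≤ m + 2) :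
    (Nat.fermatNumber m).Prime ↔
      (b : ZMod (Nat.fermatNumber m)) ^ (2 ^ (2 ^ m + 1 - v)) = -1 := by
  obtain ⟨v', w, hv2, hw, hbw, hv'⟩ := sq_form (odd_of hb) hb1
  obtain rfl : v' = v := by omega
  obtain ⟨r, rfl⟩ : ∃ r, m = j + r := ⟨m - j, by omega⟩
  have hr : 2 ≤ r := by omega
  have hvr : v' ≤ r + 2 := by omega
  have hbd := Pool.Agent.Y875.FP.exp_bound (j := j) hr
  constructor
  · intro hF
    obtain ⟨y, hy1, hy2⟩ := Pool.Agent.Y875.FP.fermat_law hr hF hb (by omega)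
    obtain ⟨w', hw', h'⟩ := pow_form hv2 hw hbw (r - 2)
    have e1 : r - 2 + 1 = r - 1 := by omega
    have e2 : v' + (r - 2) + 1 = (r + 1) + (v' - 2) := by omega
    rw [e1, e2, pow_add, hy1, mul_assoc] at h'
    have hy : y = 2 ^ (v' - 2) * w' := by
      have h3 : 2 ^ (r + 1) * y = 2 ^ (r + 1) * (2 ^ (v' - 2) * w') := by omega
      exact Nat.eq_of_mul_eq_mul_left (by positivity) h3
    have h4 := congrArg (· ^ (2 ^ (r + 2 - v'))) hy2
    simp only [mul_pow, one_pow] at h4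
    rw [← pow_mul, ← pow_mul, ← pow_add] at h4
    have e3 : 2 ^ (j + r) - (r + 1) + (r + 2 - v') = 2 ^ (j + r) + 1 - v' := by omega
    have e4 : 2 ^ j * y * 2 ^ (r + 2 - v') = 2 ^ (j + r) * w' := by
      have h5 : 2 ^ (j + r) = 2 ^ j * (2 ^ (v' - 2) * 2 ^ (r + 2 - v')) := by
        rw [← pow_add, ← pow_add]
        congr 1
        omega
      rw [h5, hy]
      ring
    have e5 : (2 : ZMod (Nat.fermatNumber (j + r))) ^ (2 ^ (j + r)) = -1 := by
      have h1 : ((Nat.fermatNumber (j + r) : ℕ) : ZMod (Nat.fermatNumber (j + r))) = 0 :=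
        ZMod.natCast_self _
      unfold Nat.fermatNumber at h1 ⊢
      push_cast at h1
      linear_combination h1
    rw [e3, e4, pow_mul 2 (2 ^ (j + r)) w', e5, hw'.neg_one_pow] at h4
    linear_combination -h4
  · intro h
    by_contra hnp
    have hF3 := Nat.three_le_fermatNumber (j + r)
    have hp : (Nat.minFac (Nat.fermatNumber (j + r))).Prime := Nat.minFac_prime (by omega)
    have hsq := Nat.minFac_sq_le_self (by omega) hnp
    have hdvd := Nat.minFac_dvd (Nat.fermatNumber (j + r))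
    set p := Nat.minFac (Nat.fermatNumber (j + r)) with hpdef
    have : Fact p.Prime := ⟨hp⟩
    have h4 : (b : ZMod p) ^ (2 ^ (2 ^ (j + r) + 1 - v')) = -1 := by
      have h1 := congrArg (ZMod.castHom hdvd (ZMod p)) h
      rw [map_pow, map_natCast, map_neg, map_one] at h1
      exact h1
    have hord : orderOf (b : ZMod p) = 2 ^ ((2 ^ (j + r) + 1 - v') + 1) := by
      apply orderOf_eq_prime_pow
      · rw [h4]
        have : Fact (2 < p) := ⟨by
          have h5 := hp.two_le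
          rcases Nat.lt_or_ge 2 p with h6 | h6
          · exact h6
          · exfalso
            have h7 : p = 2 := le_antisymm h6 h5
            rw [h7] at hdvd
            exact (Nat.not_even_iff_odd.mpr (Nat.odd_fermatNumber (j + r)))
              (even_iff_two_dvd.mpr hdvd)⟩
        exact ZMod.neg_one_ne_one
      · rw [pow_succ, pow_mul, h4]
        ring
    have hb0 : (b : ZMod p) ≠ 0 := by
      intro h5
      rw [h5, zero_pow (by positivity)] at h4
      exact (neg_ne_zero.mpr one_ne_zero) h4.symm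
    have hdvd2 : orderOf (b : ZMod p) ∣ p - 1 := ZMod.orderOf_dvd_card_sub_one hb0
    rw [hord] at hdvd2
    have hle := Nat.le_of_dvd (by have := hp.two_le; omega) hdvd2
    obtain ⟨k, hk⟩ : ∃ k, k = (2 ^ (j + r) + 1 - v') + 1 := ⟨_, rfl⟩
    rw [← hk] at hle
    have hlt : 2 ^ k + 1 ≤ p := by
      have := hp.two_le
      omega
    have hlt2 : (2 ^ k + 1) ^ 2 ≤ 2 ^ (2 ^ (j + r)) + 1 :=
      (Nat.pow_le_pow_left hlt 2).trans hsq
    have hbig : 2 * (j + r) ≤ 2 ^ (j + r) := by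
      have h7 : ∀ s : ℕ, 2 ≤ s → 2 * s ≤ 2 ^ s := by
        intro s hs
        induction s, hs using Nat.le_induction with
        | base => norm_num
        | succ s hs ih => rw [pow_succ]; omega
      exact h7 _ (by omega)
    have h9 : 2 ^ (2 ^ (j + r)) ≤ (2 ^ k) ^ 2 := by
      rw [← pow_mul]
      exact Nat.pow_le_pow_right (by norm_num) (by omega)
    have h10 : 0 < 2 ^ k := by positivity
    nlinarith

lemma fermat_val {j : ℕ} (hj : 1 ≤ j) :
    padicValNat 2 (Nat.fermatNumber j ^ 2 - 1) = 2 ^ j + 1 := by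
  have h1 : Nat.fermatNumber j ^ 2 - 1 = 2 ^ (2 ^ j + 1) * (2 ^ (2 ^ j - 1) + 1) := by
    unfold Nat.fermatNumber
    obtain ⟨a, ha⟩ : ∃ a, 2 ^ j = a + 1 := ⟨2 ^ j - 1, by have := Nat.one_le_two_pow (n := j); omega⟩
    rw [ha, Nat.add_sub_cancel]
    have h2 : (2 ^ (a + 1) + 1) ^ 2 = 1 + 2 ^ (a + 1 + 1) * (2 ^ a + 1) := by ring
    rw [h2, Nat.add_sub_cancel_left]
  have h3 : ¬ 2 ∣ 2 ^ (2 ^ j - 1) + 1 := by
    intro h
    have h4 : 2 ^ j - 1 ≠ 0 := by
      have : 2 ^ 1 ≤ 2 ^ j := Nat.pow_le_pow_right (by norm_num) hj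
      omega
    have h5 : 2 ∣ 2 ^ (2 ^ j - 1) := dvd_pow_self 2 h4
    omega
  rw [h1, padicValNat.mul (by positivity) (by positivity), padicValNat.prime_pow,
    padicValNat.eq_zero_of_not_dvd h3, add_zero]

/-- Write `F_m = 2^(2^m) + 1`.

(1) Let all prime factors of `b ≠ 0` divide `F_j`, and let `r ≥ 2`.  There is `y` with
`b^(2^(r-1)) = 1 + 2^(r+1) y`.  If `F_(j+r)` is prime, then
`b^((F_(j+r) - 1) / 2^(r+1)) 2^(2^j y) = 1` modulo `F_(j+r)`; and if `2^(r+1)` does not divide `y`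
then this congruence implies that `F_(j+r)` is prime.

(2) Let all prime factors of `b > 1` divide `F_j`, let `2^(v+1)` be the exact power of `2` that
divides `b^2 - 1`, and let `m ≥ j + 2`, `m + 2 ≥ j + v`.  Then `F_m` is prime if and only if
`b^(2^(2^m + 1 - v)) = -1` modulo `F_m`.

(3) `b = F_j`, `j ≥ 1`: for `m ≥ j + 2`, `m + 2 ≥ j + 2^j`, the number `F_m` is prime if and only if
`F_j^(2^(2^m + 1 - 2^j)) = -1` modulo `F_m`.

(4) `b = 641`: for `m ≥ 10` the number `F_m` is prime if and only if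
`641^(2^(2^m - 6)) = -1` modulo `F_m`. -/
theorem result :
    (∀ j r b : ℕ, 2 ≤ r → b ≠ 0 → DividesPowers b j →
      ∃ y : ℕ, b ^ (2 ^ (r - 1)) = 1 + 2 ^ (r + 1) * y ∧
        ((Nat.fermatNumber (j + r)).Prime →
          (b : ZMod (Nat.fermatNumber (j + r))) ^ ((Nat.fermatNumber (j + r) - 1) / 2 ^ (r + 1)) *
            2 ^ (2 ^ j * y) = 1) ∧
        (¬ 2 ^ (r + 1) ∣ y →
          (b : ZMod (Nat.fermatNumber (j + r))) ^ ((Nat.fermatNumber (j + r) - 1) / 2 ^ (r + 1)) *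
            2 ^ (2 ^ j * y) = 1 → (Nat.fermatNumber (j + r)).Prime)) ∧
    (∀ j b v m : ℕ, 1 < b → DividesPowers b j → padicValNat 2 (b ^ 2 - 1) = v + 1 →
      j + 2 ≤ m → j + v ≤ m + 2 →
      ((Nat.fermatNumber m).Prime ↔
        (b : ZMod (Nat.fermatNumber m)) ^ (2 ^ (2 ^ m + 1 - v)) = -1)) ∧
    (∀ j m : ℕ, 1 ≤ j → j + 2 ≤ m → j + 2 ^ j ≤ m + 2 →
      ((Nat.fermatNumber m).Prime ↔
        (Nat.fermatNumber j : ZMod (Nat.fermatNumber m)) ^ (2 ^ (2 ^ m + 1 - 2 ^ j)) = -1)) ∧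
    (∀ m : ℕ, 10 ≤ m →
      ((Nat.fermatNumber m).Prime ↔
        (641 : ZMod (Nat.fermatNumber m)) ^ (2 ^ (2 ^ m - 6)) = -1)) := by
  refine ⟨?_, fun j b v m h1 h2 h3 h4 h5 => test h2 h1 h3 h4 h5, ?_, ?_⟩
  · intro j r b hr hb0 hb
    have hexp : (Nat.fermatNumber (j + r) - 1) / 2 ^ (r + 1) = 2 ^ (2 ^ (j + r) - (r + 1)) := by
      have hbd := Pool.Agent.Y875.FP.exp_bound (j := j) hr
      unfold Nat.fermatNumber
      rw [Nat.add_sub_cancel, Nat.pow_div (by omega) (by norm_num)]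
    obtain ⟨c, rfl⟩ : ∃ c, r = c + 2 := ⟨r - 2, by omega⟩
    obtain ⟨y, hy⟩ := Pool.Agent.Y875.FP.odd_pow_eq (odd_of hb) c
    have e4 : c + 2 - 1 = c + 1 := by omega
    rw [hexp, e4]
    refine ⟨y, hy, fun hF => ?_, fun h1 h2 => Pool.Agent.Y875.FP.conv hr h1 h2⟩
    obtain ⟨y', hy1, hy2⟩ := Pool.Agent.Y875.FP.fermat_law hr hF hb hb0
    rw [e4, hy] at hy1
    have hy3 : 1 + 2 ^ (c + 3) * y = 1 + 2 ^ (c + 3) * y' := hy1
    have h3 : 2 ^ (c + 3) * y = 2 ^ (c + 3) * y' := by omega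
    have h4 := Nat.eq_of_mul_eq_mul_left (by positivity) h3
    rw [h4]
    exact hy2
  · intro j m hj hm1 hm2
    refine test (b := Nat.fermatNumber j) (fun q _ h => h) ?_ (fermat_val hj) hm1 hm2
    have := Nat.three_le_fermatNumber j
    omega
  · intro m hm
    have h1 := test (b := 641) (j := 5) (v := 7) (m := m) ?_ (by norm_num) ?_ (by omega) (by omega)
    · have e1 : 2 ^ m + 1 - 7 = 2 ^ m - 6 := by omega
      rw [e1] at h1
      exact_mod_cast h1
    · intro q hq hd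
      have h2 : (641 : ℕ).Prime := by norm_num
      rw [(Nat.prime_dvd_prime_iff_eq hq h2).mp hd]
      norm_num [Nat.fermatNumber]
    · have h3 : 641 ^ 2 - 1 = 2 ^ 8 * 1605 := by norm_num
      rw [h3, padicValNat.mul (by norm_num) (by norm_num), padicValNat.prime_pow,
        padicValNat.eq_zero_of_not_dvd (by norm_num)]

end Pool.Agent.Results.MP_37e5fa_nt.FermatDivisorBases
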