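import Pool.Agent.U810.FS.Fermat

/-!
# Fermat numbers are not products of two sums of few powers of two with signs

Let `F_m = d e` with integers `d, e ≠ ± 1`, and let `d = ∑_{i ∈ S} u_i 2 ^ i`,
`e = ∑_{j ∈ T} v_j 2 ^ j` with arbitrary finite sets `S`, `T` of exponents and arbitrary integer
coefficients (for example signed binary expansions, `u_i, v_j = ± 1`). If
`(∑ |u_i|) (∑ |v_j|) + 2 ≤ 2 ^ g`, then `2 ^ (m + 1) < (4 |T| + 8) ^ |S| g` and
`2 ^ m < 5 ^ |S ∪ T| g`.

The proof. Approximate the numbers `i / 2 ^ m`, `i ∈ S` (and `i ∈ S ∪ T`) simultaneously by fractions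
with a small denominator `q < 2 ^ m`. If the bounds fail, the numerators, as exponents of a new
variable `X`, lift the factorization `d e = 2 ^ N + 1`, `N = 2 ^ m`, to a factorization of the
polynomial `2 ^ N X ^ q + 1`. This polynomial is irreducible: its root field contains a primitive
`2 ^ (a+1)`-th root of unity, `q = 2 ^ a q'`, `q'` odd, and a field of degree `q'`.
-/

set_option autoImplicit false

namespace Pool.Agent.Results.MP_37e5fa_nt.SparseFactors

theorem result (m : ℕ) (d e : ℤ) (hde : d * e = Nat.fermatNumber m) (hd : |d| ≠ 1) (he : |e| ≠ 1)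
    (S T : Finset ℕ) (u v : ℕ → ℤ) (hS : d = ∑ i ∈ S, u i * 2 ^ i) (hT : e = ∑ j ∈ T, v j * 2 ^ j)
    (g : ℕ) (hg : (∑ i ∈ S, |u i|) * (∑ j ∈ T, |v j|) + 2 ≤ 2 ^ g) :
    2 ^ (m + 1) < (4 * T.card + 8) ^ S.card * g ∧ 2 ^ m < 5 ^ (S ∪ T).card * g := by
  refine Pool.Agent.U810.FS.fermat S T u v hS hT ?_ hd he ?_
  · rw [hde]
    unfold Nat.fermatNumber
    push_cast
    ring
  · zify
    exact hg

end Pool.Agent.Results.MP_37e5fa_nt.SparseFactors
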